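import Mathlib
import Pool.Agent.Helper23.BO.Final

/-!
# Balanced triangulations of 4-manifolds have discrete gradients with few critical edges

`K` is a triangulated closed connected 4-manifold, or more generally a closed normal
pseudomanifold of dimension 4, with `f_i` simplices of dimension `i`.

Let `A` be a set of vertices which contains exactly three vertices of every 4-dimensional
simplex, and `K[A]` the 2-dimensional subcomplex of the simplices with all their vertices in
`A`, `g = f_1(K[A]) - 3 |A| + 6`. We prove that `K` has a discrete gradient with exactly one
critical vertex and `c` critical edges, where `3 c ≤ g`; and if `K` is a manifold (in the weak sense of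
`SphereLinks`) and `H^1(K; Z/2) = 0`, then `c = 0` or `3 (c + 1) ≤ g`.

If `K` is balanced (its vertices have a colouring with five colours in which the vertices
of every 4-dimensional simplex have different colours), then with `H = f_1 - 6 f_0 + 20 = h_2 - 2 h_1` we obtain
`10 c ≤ H`, and `c = 0` or `10 (c + 1) ≤ H` if `K` is a manifold with `H^1(K; Z/2) = 0`: so `c = 0` if `H < 20`.

By the theorem of Gallais and Benedetti a discrete gradient on a PL triangulation of a closed
manifold `M` yields a handle decomposition with the same numbers of handles. So a simply connected closed
4-manifold with a balanced triangulation with `h_2 - 2 h_1 < 20`, or with a set `A` with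
`f_1(K[A]) < 3 |A|`, has a handle decomposition without 1-handles.

The proof is elementary. Edges of `K[A]` become known if they are the third edge of a triangle with two known
edges. Following the surfaces which are the links of the edges outside `A` one finds `(f_1(K[A]) + 3)/3` edges from which all
edges become known. On the other hand, in a set of triangles without cycles modulo 2
in which no collapse is possible, every further removal of a triangle, followed by collapses, lowers the
sum of `deg - 2` over the edges by at least three.
-/

set_option autoImplicit false

namespace Pool.Agent.Results.MP_f18604_gt.BalancedOneHandles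

open Pool.MP_f18604_gt.Gem Pool.MP_f18604_gt.KF Pool.MP_f18604_gt.BO

theorem result {α : Type} [Fintype α] [DecidableEq α] [Nonempty α] {K : Finset (Finset α)}
    (hK : NormalPseudomanifold K) :
    (∀ A : Finset α, Meets K A →
      ∃ D : DiscreteGradient (K : Set (Finset α)), (∃! σ, D.Critical σ ∧ σ.card = 1) ∧
        ∃ c : ℕ, {σ | D.Critical σ ∧ σ.card = 2}.ncard = c ∧
        3 * (c : ℤ) ≤ (part K A 2).card - 3 * A.card + 6 ∧
        (SphereLinks K → Acyc K →
          c = 0 ∨ 3 * ((c : ℤ) + 1) ≤ (part K A 2).card - 3 * A.card + 6)) ∧
    (∀ κ : α → Fin 5, Rainbow K κ →
      ∃ D : DiscreteGradient (K : Set (Finset α)), (∃! σ, D.Critical σ ∧ σ.card = 1) ∧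
        ∃ c : ℕ, {σ | D.Critical σ ∧ σ.card = 2}.ncard = c ∧
        10 * (c : ℤ) ≤ fnum K 1 - 6 * fnum K 0 + 20 ∧
        (SphereLinks K → Acyc K →
          c = 0 ∨ 10 * ((c : ℤ) + 1) ≤ fnum K 1 - 6 * fnum K 0 + 20)) :=
  ⟨fun _ hA => main_type hK hA, fun _ hκ => main_balanced hK hκ⟩

end Pool.Agent.Results.MP_f18604_gt.BalancedOneHandles
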