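import Mathlib
import Pool.Agent.Helper7.LS.Final
import Pool.Agent.Helper7.LS.Cert
import Pool.Agent.Helper7.LS.EulerC
import Pool.Agent.Helper7.LS.Wirt
import Pool.Agent.Helper7.LS.TorusLink

/-!
# Link surgery manifolds with few 1-handles

For a link `L` in the 3-sphere with components `L_1, ..., L_r` and `n_1, ..., n_r ≥ 1` Fintushel and Stern
(Knots, links, and 4-manifolds) defined the closed simply connected 4-manifold `E(n_1, ..., n_r)_L`: the product of the circle
and the exterior of `L`, glued along its `i`-th boundary torus to the complement of a regular fibre of the
elliptic surface `E(n_i)`.  For a knot this is the knot surgery manifold `E(n)_K`.  The Seiberg-Witten invariant is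
essentially the (multivariable) Alexander polynomial of `L`, so there are infinitely many smooth
structures on the same topological manifold.  If `L` is the torus link `T(np, nq)`, `p` and `q` coprime, and all `n_i = 1`, one
gets the elliptic surface `E(n)_(p,q)` with two multiple fibres.

`Diagram N` is a grid diagram of a link with a number `c m` of folds for every column `m`, an even number `2 n_i` on every
component `L_i` (and an even number of columns, which a stabilisation achieves).  The file `Cells.lean` describes an explicit
finite regular cell complex `X(D)` with its geometric meaning: it is a cell structure on `E(n_1, ..., n_r)_L`, the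
elliptic pieces being in Kummer form, `(T^2 x surface)/(-1)` with its singular points resolved.  (That `X(D)` is this manifold is not
proved in Lean.  By computer we have checked for examples that all closed cells and all links are spheres and that the
signature is `-8 (n_1 + ... + n_r)`.)

We prove:
* `X(D)` is a closed thin pure complex of dimension 4: every edge has two ends, every interval of length two in the
  face poset has exactly two cells between its ends, every 3-cell is a facet of exactly two 4-cells; and its Euler characteristic is
  `6 ∑ c m = 12 (n_1 + ... + n_r)`;
* if the folds and a set `S` of rows colour all rows (the rule of the Wirtinger number of Blair, Kjuchukova, Velazquez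
  and Villanueva, who prove that it equals the bridge number), then `X(D)` has a discrete gradient with exactly one
  critical vertex and at most `|S|` critical edges;
* all rows are coloured without seeds (`S = ∅`) if there is a fold in every column, and also for a grid diagram
  of the torus link `T(2n, (2r+1)n)` with two folds on every component.

By Forman, Gallais and Benedetti the manifold then has a handle decomposition with one 0-handle and at
most `|S|` 1-handles.  So for every link with `b_i` overbridges on `L_i` the manifold `E(n_1, ..., n_r)_L` has a handle
decomposition with at most `∑ max(0, b_i - 2 n_i)` 1-handles, and all elliptic surfaces `E(n)_(2,q)`, `n ≥ 1`, `q` odd, have no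
1-handles.  (For knots Monden and Yabuguchi have shown that there are no 1-handles if `b(K) ≤ 9 n`.)
-/

set_option autoImplicit false

namespace Pool.Agent.Results.MP_f18604_gt.LinkSurgery

open Pool.MP_f18604_gt.LS

theorem result :
    (∀ (N : ℕ) (D : Diagram N),
      Finite (XCell D) ∧
      ClosedThin (XCell.facets (D := D)) XCell.dim ∧
      ∑ i ∈ Finset.range 5, (-1 : ℤ) ^ i * Nat.card {x : XCell D // x.dim = i} = 6 * ∑ m, D.c m ∧
      ∀ S : Finset (Fin N), (∃ m, 0 < D.c m) → (∀ k, D.Coloured S k) →
        ∃ G : Gradient (XCell.facets (D := D)), (∃! a, G.Critical a ∧ a.dim = 0) ∧
          {a | G.Critical a ∧ a.dim = 1}.ncard ≤ S.card) ∧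
    (∀ (N : ℕ) (D : Diagram N), (∀ m, 0 < D.c m) → ∀ k, D.Coloured ∅ k) ∧
    ∀ n r : ℕ, 0 < n → 0 < r → ∃ D : Diagram (n * (2 * r + 4)),
      (∀ m, D.sig m = m ∧
        (D.tau m).val = (if m.val < n * (2 * r + 1) then m.val + 2 * n
          else if m.val < n * (2 * r + 2) then m.val - n * (2 * r + 1)
          else if m.val < n * (2 * r + 3) then n * (4 * r + 6) - 1 - m.val
          else n * (2 * r + 5) - 1 - m.val) ∧
        D.c m = if m.val < 2 * n then 1 else 0) ∧
      ∀ k, D.Coloured ∅ k := by
  refine ⟨fun _ D => ?_, fun _ D hc k => coloured_of_all D hc k,
    fun n r hn hr => ⟨torusLink n r hn, fun m => ⟨rfl, rfl, rfl⟩, torusLink_coloured hn hr⟩⟩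
  rw [XCell.facets_eq]
  exact ⟨Finite.of_fintype _, closedThin, euler_card, fun S hc h => main D S hc h⟩

end Pool.Agent.Results.MP_f18604_gt.LinkSurgery
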